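import Mathlib
import Pool.Agent.CurseLp.Measure
import Pool.Agent.CurseLp.Fooling

/-!
# Curse of dimensionality for smooth integration on volume-normalised `ℓ_p` balls, `p > 0`

Problem MP_562679_an.
-/

set_option autoImplicit false

open MeasureTheory Set Filter
open scoped ENNReal Pointwise

namespace Pool.Agent.Results.MP_562679_an.CurseLpBalls

/-- An open subset `D_d` of `ℝ^d` with Lebesgue measure `1`. -/
structure UnitDomain (d : ℕ) where
  /-- the underlying set -/
  carrier : Set (EuclideanSpace ℝ (Fin d))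
  isOpen : IsOpen carrier
  volume_eq_one : volume carrier = 1

/-- The class `C̃²(D)`: `f ∈ C²(D)`, `‖f‖_∞ ≤ 1`, `Lip(f) ≤ d^{-1/2}` and
`Lip(D^Θ f) ≤ d^{-1}` for every unit vector `Θ` (all suprema are over `D`, with the Euclidean norm).
Functions on `D` are represented by functions on `ℝ^d`; only their values on `D` matter. -/
def SmoothClass {d : ℕ} (D : UnitDomain d) : Set (EuclideanSpace ℝ (Fin d) → ℝ) :=
  {f | ContDiffOn ℝ 2 f D.carrier ∧
    (∀ x ∈ D.carrier, |f x| ≤ 1) ∧
    (∀ x ∈ D.carrier, ∀ y ∈ D.carrier, |f x - f y| ≤ (d : ℝ) ^ (-(1 / 2) : ℝ) * ‖x - y‖) ∧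
    (∀ Θ : EuclideanSpace ℝ (Fin d), ‖Θ‖ = 1 → ∀ x ∈ D.carrier, ∀ y ∈ D.carrier,
      |lineDeriv ℝ f x Θ - lineDeriv ℝ f y Θ| ≤ (d : ℝ)⁻¹ * ‖x - y‖)}

/-- A deterministic algorithm that evaluates functions at points of `D`; the points may be chosen
adaptively: the next point is a function of the list of the function values seen so far. -/
structure Algorithm {d : ℕ} (D : UnitDomain d) where
  /-- the next evaluation point, given the list of the values seen so far -/
  node : List ℝ → D.carrier
  /-- the output, given the list of all values -/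
  output : List ℝ → ℝ

/-- The list of the first `n` function values of `f` seen by the algorithm. -/
def Algorithm.values {d : ℕ} {D : UnitDomain d} (A : Algorithm D)
    (f : EuclideanSpace ℝ (Fin d) → ℝ) : ℕ → List ℝ
  | 0 => []
  | n + 1 => A.values f n ++ [f (A.node (A.values f n))]

/-- The approximation `A(f)` of the integral computed from `n` function values. -/
def Algorithm.run {d : ℕ} {D : UnitDomain d} (A : Algorithm D) (n : ℕ)
    (f : EuclideanSpace ℝ (Fin d) → ℝ) : ℝ :=
  A.output (A.values f n)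

/-- The minimal worst case error `e(n, C̃²(D))` over all algorithms that use `n` function values. -/
noncomputable def minError {d : ℕ} (D : UnitDomain d) (n : ℕ) : ℝ≥0∞ :=
  ⨅ A : Algorithm D, ⨆ f ∈ SmoothClass D, ENNReal.ofReal |(∫ x in D.carrier, f x) - A.run n f|

/-- The information complexity `n(ε, d) = min {n : e(n, C̃²(D)) ≤ ε}` (`= ∞` if there is no such `n`). -/
noncomputable def infoComplexity {d : ℕ} (D : UnitDomain d) (ε : ℝ) : ℕ∞ :=
  ⨅ (n : ℕ) (_ : minError D n ≤ ENNReal.ofReal ε), (n : ℕ∞)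

/-- The open unit ball of `ℓ_p^d`. -/
def lpUnitBall (p : ℝ) (d : ℕ) : Set (EuclideanSpace ℝ (Fin d)) := {x | ∑ i, |x i| ^ p < 1}

/-- The scaling factor `r_{p,d}`. -/
noncomputable def lpRadius (p : ℝ) (d : ℕ) : ℝ := (volume (lpUnitBall p d)).toReal ^ (-(1 / d) : ℝ)

lemma mem_lpUnitBall_iff (p : ℝ) (d : ℕ) (x : EuclideanSpace ℝ (Fin d)) :
    x ∈ lpUnitBall p d ↔ WithLp.ofLp x ∈ CurseLp.pB p d 1 := Iff.rfl

lemma isOpen_lpUnitBall {p : ℝ} (hp : 0 < p) (d : ℕ) : IsOpen (lpUnitBall p d) := by
  apply isOpen_lt _ continuous_const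
  apply continuous_finsetSum
  intro i _
  apply Continuous.rpow_const
  · fun_prop
  · intro x; right; exact hp.le

lemma volume_lpUnitBall_pos {p : ℝ} (hp : 0 < p) (d : ℕ) : 0 < volume (lpUnitBall p d) := by
  refine (isOpen_lpUnitBall hp d).measure_pos volume ⟨0, ?_⟩
  simp [lpUnitBall, Real.zero_rpow hp.ne']

lemma volume_lpUnitBall_lt_top {p : ℝ} (hp : 0 < p) (d : ℕ) : volume (lpUnitBall p d) < ∞ := by
  have h : Bornology.IsBounded (lpUnitBall p d) := by
    rw [Metric.isBounded_iff_subset_closedBall 0]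
    refine ⟨Real.sqrt d, ?_⟩
    intro x hx
    rw [Metric.mem_closedBall, dist_zero_right, EuclideanSpace.norm_eq]
    apply Real.sqrt_le_sqrt
    have h1 : ∀ i, ‖x i‖ ^ 2 ≤ 1 := by
      intro i
      have h2 : |x i| ^ p < 1 := by
        refine lt_of_le_of_lt ?_ hx
        exact Finset.single_le_sum (f := fun i => |x i| ^ p)
          (fun i _ => Real.rpow_nonneg (abs_nonneg _) _) (Finset.mem_univ i)
      have h3 : |x i| < 1 := by
        by_contra h4
        push Not at h4
        exact absurd h2 (not_lt.mpr (Real.one_le_rpow h4 hp.le))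
      rw [Real.norm_eq_abs]
      exact pow_le_one₀ (abs_nonneg _) h3.le
    calc ∑ i, ‖x i‖ ^ 2 ≤ ∑ _i : Fin d, (1 : ℝ) := Finset.sum_le_sum fun i _ => h1 i
      _ = d := by simp
  exact h.measure_lt_top

lemma lpRadius_pos {p : ℝ} (hp : 0 < p) (d : ℕ) : 0 < lpRadius p d := by
  unfold lpRadius
  apply Real.rpow_pos_of_pos
  exact ENNReal.toReal_pos (volume_lpUnitBall_pos hp d).ne' (volume_lpUnitBall_lt_top hp d).ne

lemma volume_lpBall {p : ℝ} (hp : 0 < p) (d : ℕ) : volume (lpRadius p d • lpUnitBall p d) = 1 := by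
  rw [Measure.addHaar_smul, finrank_euclideanSpace_fin]
  have h0 := ENNReal.toReal_pos (volume_lpUnitBall_pos hp d).ne' (volume_lpUnitBall_lt_top hp d).ne
  rcases Nat.eq_zero_or_pos d with rfl | hd
  · simp only [pow_zero, abs_one, ENNReal.ofReal_one, one_mul]
    have h1 : lpUnitBall p 0 = univ := by
      ext x; simp [lpUnitBall]
    rw [h1, volume_euclideanSpace_eq_dirac, Measure.dirac_apply' _ MeasurableSet.univ]
    simp
  · have h2 : lpRadius p d ^ d = (volume (lpUnitBall p d)).toReal⁻¹ := by
      unfold lpRadius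
      rw [← Real.rpow_natCast, ← Real.rpow_mul h0.le]
      have : (-(1 / d) : ℝ) * (d : ℝ) = -1 := by
        have : (d : ℝ) ≠ 0 := by exact_mod_cast hd.ne'
        field_simp
      rw [this, Real.rpow_neg_one]
    rw [h2, abs_of_pos (inv_pos.mpr h0), ENNReal.ofReal_inv_of_pos h0,
      ENNReal.ofReal_toReal (volume_lpUnitBall_lt_top hp d).ne]
    exact ENNReal.inv_mul_cancel (volume_lpUnitBall_pos hp d).ne' (volume_lpUnitBall_lt_top hp d).ne

/-- The open `ℓ_p^d` ball `B_{p,d} = r_{p,d} {x : ∑ |x_i|^p < 1}`, scaled to have volume `1`. -/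
noncomputable def lpBall (p : ℝ) (hp : 0 < p) (d : ℕ) : UnitDomain d where
  carrier := lpRadius p d • lpUnitBall p d
  isOpen := (isOpen_lpUnitBall hp d).smul₀ (lpRadius_pos hp d).ne'
  volume_eq_one := volume_lpBall hp d


lemma mem_lpBall_iff {p : ℝ} (hp : 0 < p) (d : ℕ) (x : EuclideanSpace ℝ (Fin d)) :
    x ∈ (lpBall p hp d).carrier ↔ WithLp.ofLp x ∈ CurseLp.pB p d (lpRadius p d ^ p) := by
  have hr := lpRadius_pos hp d
  change x ∈ lpRadius p d • lpUnitBall p d ↔ _
  rw [Set.mem_smul_set_iff_inv_smul_mem₀ hr.ne']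
  simp only [lpUnitBall, CurseLp.pB, CurseLp.pS, mem_ofPred_eq, PiLp.smul_apply, smul_eq_mul, abs_mul]
  have h2 : ∀ i : Fin d, (|(lpRadius p d)⁻¹| * |x i|) ^ p = (lpRadius p d ^ p)⁻¹ * |x i| ^ p := by
    intro i
    rw [abs_of_pos (inv_pos.mpr hr), Real.mul_rpow (inv_pos.mpr hr).le (abs_nonneg _),
      Real.inv_rpow hr.le]
  simp_rw [h2]
  rw [← Finset.mul_sum, inv_mul_lt_iff₀ (by positivity), mul_one]

/-- transfer of volumes between `EuclideanSpace ℝ (Fin d)` and `Fin d → ℝ`. -/
lemma volume_ofLp_preimage {d : ℕ} (S : Set (Fin d → ℝ)) :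
    volume {x : EuclideanSpace ℝ (Fin d) | WithLp.ofLp x ∈ S} = volume S :=
  (EuclideanSpace.volume_preserving_symm_measurableEquiv_toLp (Fin d)).measure_preimage_equiv S

lemma volume_pB_lpRadius {p : ℝ} (hp : 0 < p) (d : ℕ) :
    volume (CurseLp.pB p d (lpRadius p d ^ p)) = 1 := by
  rw [← volume_ofLp_preimage, ← (lpBall p hp d).volume_eq_one]
  congr 1
  ext x
  exact (mem_lpBall_iff hp d x).symm

/-- if `f` vanishes at the nodes used on the zero function then `f` and `0` give the same values. -/
lemma values_eq_of_zero {d : ℕ} {D : UnitDomain d} (A : Algorithm D) {f : EuclideanSpace ℝ (Fin d) → ℝ} {n : ℕ}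
    (hf : ∀ j < n, f (A.node (A.values (fun _ => 0) j)) = 0) : A.values f n = A.values (fun _ => 0) n := by
  induction n with
  | zero => rfl
  | succ n ih =>
    have h1 := ih (fun j hj => hf j (by omega))
    have h2 := hf n (by omega)
    simp only [Algorithm.values, h1, h2]

/-- Lower bound for the worst case error from fooling functions. -/
lemma le_minError {d : ℕ} {D : UnitDomain d} {n : ℕ} {δ : ℝ}
    (h : ∀ x : Fin n → D.carrier, ∃ f ∈ SmoothClass D, (fun y => -f y) ∈ SmoothClass D ∧
      (∀ j, f (x j) = 0) ∧ δ ≤ ∫ y in D.carrier, f y) : ENNReal.ofReal δ ≤ minError D n := by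
  unfold minError
  refine le_iInf fun A => ?_
  obtain ⟨f, hf, hf', hfx, hfi⟩ := h (fun j => A.node (A.values (fun _ => 0) j))
  have h1 : A.values f n = A.values (fun _ => 0) n :=
    values_eq_of_zero A (fun j hj => hfx ⟨j, hj⟩)
  have h2 : A.values (fun y => -f y) n = A.values (fun _ => 0) n :=
    values_eq_of_zero A (fun j hj => by
      have := hfx ⟨j, hj⟩
      simp only at this ⊢
      rw [this, neg_zero])
  set a := A.output (A.values (fun _ => 0) n) with ha
  have h3 : A.run n f = a := by unfold Algorithm.run; rw [h1]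
  have h4 : A.run n (fun y => -f y) = a := by unfold Algorithm.run; rw [h2]
  rcases le_total a 0 with h5 | h5
  · refine le_trans ?_ (le_iSup₂ (f := fun f (_ : f ∈ SmoothClass D) => ENNReal.ofReal |(∫ x in D.carrier, f x) - A.run n f|) f hf)
    apply ENNReal.ofReal_le_ofReal
    rw [h3]
    refine le_trans ?_ (le_abs_self _)
    linarith
  · refine le_trans ?_ (le_iSup₂ (f := fun f (_ : f ∈ SmoothClass D) => ENNReal.ofReal |(∫ x in D.carrier, f x) - A.run n f|) _ hf')
    apply ENNReal.ofReal_le_ofReal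
    rw [h4, integral_neg]
    refine le_trans ?_ (neg_le_abs _)
    linarith

/-- **The curse of dimensionality for `C̃²(B_{p,d})`, all `p > 0`.** -/
theorem result (p : ℝ) (hp : 0 < p) :
    ∃ C γ ε₀ : ℝ, 0 < C ∧ 0 < γ ∧ 0 < ε₀ ∧
      ∀ ε : ℝ, 0 < ε → ε ≤ ε₀ → ∀ d : ℕ, 1 ≤ d →
        ENNReal.ofReal (C * (1 + γ) ^ d) ≤ (infoComplexity (lpBall p hp d) ε : ℝ≥0∞) := by
  obtain ⟨c, M, hc, hM, hgood⟩ := CurseLp.exists_good_set hp
  obtain ⟨A₁, A₂, hA₁, hA₂, hfool⟩ := CurseLp.exists_fooling
  -- constants
  set s : ℝ := 2 / Real.sqrt c + 1 / Real.sqrt (2 * M) with hs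
  have hs0 : 0 < s := by positivity
  set c₀ : ℝ := 1 / (1 + A₁ * s + A₂ * s ^ 2) with hc₀
  have hden : 0 < 1 + A₁ * s + A₂ * s ^ 2 := by positivity
  have hc₀pos : 0 < c₀ := by positivity
  have hc₀1 : c₀ ≤ 1 := by
    rw [hc₀, div_le_one hden]
    have : 0 ≤ A₁ * s + A₂ * s ^ 2 := by positivity
    linarith
  have hc₀A₁ : c₀ * (A₁ * s) ≤ 1 := by
    rw [hc₀, one_div_mul_eq_div, div_le_one hden]
    have : 0 ≤ A₂ * s ^ 2 := by positivity
    linarith
  have hc₀A₂ : c₀ * (A₂ * s ^ 2) ≤ 1 := by
    rw [hc₀, one_div_mul_eq_div, div_le_one hden]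
    have : 0 ≤ A₁ * s := by positivity
    linarith
  set κ : ℝ := c ^ 2 / (8 * (8 * M)) with hκ
  have hκ0 : 0 < κ := by positivity
  refine ⟨1 / 4, Real.exp κ - 1, c₀ / 16, by norm_num, ?_, by positivity, ?_⟩
  · have := Real.add_one_lt_exp hκ0.ne'
    linarith
  intro ε hε hεε₀ d hd
  have hd0 : 0 < d := hd
  have hdR : (0 : ℝ) < d := by exact_mod_cast hd0
  -- reduction to the error bound
  unfold infoComplexity
  by_cases hlarge : ∀ n : ℕ, minError (lpBall p hp d) n ≤ ENNReal.ofReal ε →
      (1 / 4 : ℝ) * (1 + (Real.exp κ - 1)) ^ d ≤ n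
  · have : ENNReal.ofReal ((1 / 4 : ℝ) * (1 + (Real.exp κ - 1)) ^ d) ≤
        ((⌈(1 / 4 : ℝ) * (1 + (Real.exp κ - 1)) ^ d⌉₊ : ℕ∞) : ℝ≥0∞) := by
      rw [ENat.toENNReal_coe]
      rw [ENNReal.ofReal_le_iff_le_toReal (by simp)]
      simpa using Nat.le_ceil _
    refine this.trans ?_
    rw [ENat.toENNReal_le]
    refine le_iInf₂ fun n hn => ?_
    have := hlarge n hn
    exact_mod_cast Nat.ceil_le.mpr this
  · exfalso
    push Not at hlarge
    obtain ⟨n, hn1, hn2⟩ := hlarge
    have hexp : (1 / 4 : ℝ) * (1 + (Real.exp κ - 1)) ^ d = Real.exp (κ * d) / 4 := by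
      rw [add_sub_cancel, ← Real.exp_nat_mul, mul_comm κ]
      ring
    rw [hexp] at hn2
    have hle : ENNReal.ofReal (c₀ / 8) ≤ minError (lpBall p hp d) n := by
      apply le_minError
      intro x
      set σ : ℝ := Real.sqrt (2 * M * d) with hσ
      have hσ0 : 0 < σ := by positivity
      have hσ2 : σ ^ 2 = 2 * M * d := Real.sq_sqrt (by positivity)
      set ρ : ℝ := Real.sqrt (c * d) / 2 with hρ
      have hρ0 : 0 < ρ := by positivity
      have hρ2 : (2 * ρ) ^ 2 = c * d := by
        rw [hρ]
        rw [mul_div_cancel₀ _ (by norm_num : (2:ℝ) ≠ 0)]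
        exact Real.sq_sqrt (by positivity)
      have hsum : 1 / ρ + 1 / σ = s / Real.sqrt d := by
        rw [hρ, hσ, hs, Real.sqrt_mul hc.le, Real.sqrt_mul (by positivity : (0:ℝ) ≤ 2 * M)]
        have h1 : Real.sqrt c ≠ 0 := by positivity
        have h2 : Real.sqrt d ≠ 0 := by positivity
        have h3 : Real.sqrt (2 * M) ≠ 0 := by positivity
        field_simp
      -- the points that matter
      let x' : Fin n → EuclideanSpace ℝ (Fin d) := fun j => if ‖(x j : EuclideanSpace ℝ (Fin d))‖ < 2 * σ then (x j : EuclideanSpace ℝ (Fin d)) else 0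
      have hx'norm : ∀ j, ‖x' j‖ ≤ 2 * σ := by
        intro j
        simp only [x']
        split_ifs with h
        · exact h.le
        · simp; positivity
      have hx'sq : ∀ j, ∑ i, (x' j i) ^ 2 ≤ 8 * M * d := by
        intro j
        have h1 : ∑ i, (x' j i) ^ 2 = ‖x' j‖ ^ 2 := by
          rw [EuclideanSpace.norm_sq_eq]
          simp
        rw [h1]
        calc ‖x' j‖ ^ 2 ≤ (2 * σ) ^ 2 := by gcongr; exact hx'norm j
          _ = 8 * M * d := by rw [mul_pow, hσ2]; ring
      have hgood' := hgood d hd0 _ (volume_pB_lpRadius hp d) (8 * M) (by positivity) n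
        (fun j i => x' j i) hx'sq hn2.le
      set G : Set (Fin d → ℝ) := {y : Fin d → ℝ | y ∈ CurseLp.pB p d (lpRadius p d ^ p) ∧ ∑ i, y i ^ 2 < M * d ∧
        c * d ≤ ∑ i, CurseLp.clip (y i) ^ 2 ∧ ∀ j, ∑ i, x' j i * CurseLp.clip (y i) < c / 2 * d} with hG
      set K : Set (EuclideanSpace ℝ (Fin d)) := convexHull ℝ (insert 0 (range x')) with hK
      have hKclosed : IsClosed K := ((finite_range x').insert 0).isClosed_convexHull ℝ
      have hKconv : Convex ℝ K := convex_convexHull ℝ _
      have hKne : K.Nonempty := ⟨0, subset_convexHull ℝ _ (mem_insert _ _)⟩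
      obtain ⟨F, hF2, hF0, hF1, hFlip, hFlip', hFK, hFfar, hFgood⟩ := hfool d K hKclosed hKconv hKne ρ σ hρ0 hσ0
      have hsd : Real.sqrt d ^ 2 = d := Real.sq_sqrt hdR.le
      have hrp : (d : ℝ) ^ (-(1 / 2) : ℝ) = 1 / Real.sqrt d := by
        rw [Real.rpow_neg hdR.le, Real.sqrt_eq_rpow, one_div, one_div]
      -- membership in the class
      have hmem : ∀ e : ℝ, |e| = c₀ → (fun y => e * F y) ∈ SmoothClass (lpBall p hp d) := by
        intro e he
        refine ⟨(contDiff_const.mul hF2).contDiffOn, ?_, ?_, ?_⟩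
        · intro y _
          rw [abs_mul, he, abs_of_nonneg (hF0 y)]
          exact mul_le_one₀ hc₀1 (hF0 y) (hF1 y)
        · intro y _ z _
          rw [← mul_sub, abs_mul, he, hrp]
          calc c₀ * |F y - F z| ≤ c₀ * (A₁ * (s / Real.sqrt d) * ‖y - z‖) := by
                gcongr
                rw [← hsum]; exact hFlip y z
            _ = (c₀ * (A₁ * s)) * (1 / Real.sqrt d * ‖y - z‖) := by ring
            _ ≤ 1 * (1 / Real.sqrt d * ‖y - z‖) := by gcongr
            _ = _ := one_mul _
        · intro Θ hΘ y _ z _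
          have hline : ∀ y, lineDeriv ℝ (fun y => e * F y) y Θ = e * fderiv ℝ F y Θ := by
            intro y
            have hFd : DifferentiableAt ℝ F y := (hF2.differentiable (by norm_num)) y
            have h1 : HasFDerivAt (fun y => e * F y) (e • fderiv ℝ F y) y := hFd.hasFDerivAt.const_mul e
            rw [h1.differentiableAt.lineDeriv_eq_fderiv, h1.fderiv]
            rfl
          rw [hline, hline, ← mul_sub, abs_mul, he]
          calc c₀ * |fderiv ℝ F y Θ - fderiv ℝ F z Θ| ≤ c₀ * (A₂ * (s / Real.sqrt d) ^ 2 * ‖y - z‖) := by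
                gcongr
                rw [← hsum]; exact hFlip' Θ hΘ y z
            _ = (c₀ * (A₂ * s ^ 2)) * ((d : ℝ)⁻¹ * ‖y - z‖) := by
              rw [div_pow, hsd]; ring
            _ ≤ 1 * ((d : ℝ)⁻¹ * ‖y - z‖) := by gcongr
            _ = _ := one_mul _
      refine ⟨fun y => c₀ * F y, hmem c₀ (abs_of_pos hc₀pos), ?_, ?_, ?_⟩
      · have := hmem (-c₀) (by rw [abs_neg, abs_of_pos hc₀pos])
        simpa using this
      · intro j
        have : F (x j) = 0 := by
          by_cases h : ‖(x j : EuclideanSpace ℝ (Fin d))‖ < 2 * σ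
          · apply hFK
            apply subset_convexHull ℝ _
            right
            exact ⟨j, by simp only [x', if_pos h]⟩
          · exact hFfar _ (not_lt.mp h)
        simp only [this, mul_zero]
      · -- the integral
        have hGF : {y : EuclideanSpace ℝ (Fin d) | WithLp.ofLp y ∈ G} ⊆
            {y | c₀ / 2 ≤ c₀ * F y} ∩ (lpBall p hp d).carrier := by
          intro y hy
          obtain ⟨hy1, hy2, hy3, hy4⟩ := hy
          refine ⟨?_, (mem_lpBall_iff hp d y).mpr hy1⟩
          simp only [mem_ofPred_eq]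
          have : 1 / 2 ≤ F y := by
            apply hFgood
            · intro w hw
              -- the separating functional
              set θ : EuclideanSpace ℝ (Fin d) := WithLp.toLp 2 (fun i => CurseLp.clip (y i)) with hθ
              have hθ2 : ‖θ‖ ^ 2 = ∑ i, CurseLp.clip (y i) ^ 2 := by
                rw [EuclideanSpace.norm_sq_eq]
                simp [hθ]
              have hinner : ∀ z : EuclideanSpace ℝ (Fin d), inner ℝ θ z = ∑ i, z i * CurseLp.clip (y i) := by
                intro z
                rw [PiLp.inner_apply]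
                simp [hθ, mul_comm]
              have hhalf : K ⊆ {z | inner ℝ θ z ≤ c / 2 * d} := by
                apply convexHull_min
                · intro z hz
                  rcases hz with rfl | ⟨j, rfl⟩
                  · simp only [mem_ofPred_eq, inner_zero_right]; positivity
                  · simp only [mem_ofPred_eq, hinner]
                    exact (hy4 j).le
                · exact convex_halfSpace_le (innerₛₗ ℝ θ).isLinear _
              have h1 : inner ℝ θ w ≤ c / 2 * d := hhalf hw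
              have h2 : ‖θ‖ ^ 2 ≤ inner ℝ θ y := by
                rw [hinner, hθ2]
                exact Finset.sum_le_sum fun i _ => CurseLp.clip_sq_le (y i)
              have h3 : ‖θ‖ ^ 2 / 2 ≤ inner ℝ θ (y - w) := by
                rw [inner_sub_right]
                have : c * d ≤ ‖θ‖ ^ 2 := by rw [hθ2]; exact hy3
                linarith
              have h4 := real_inner_le_norm θ (y - w)
              have h5 : 2 * ρ ≤ ‖θ‖ := by
                apply le_of_sq_le_sq _ (norm_nonneg _)
                rw [hρ2, hθ2]; exact hy3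
              have hθpos : 0 < ‖θ‖ := by linarith
              have h6 : ‖θ‖ * (‖θ‖ / 2) ≤ ‖θ‖ * ‖y - w‖ := by
                refine le_trans (le_of_eq ?_) (h3.trans h4)
                ring
              have h7 := le_of_mul_le_mul_left h6 hθpos
              linarith
            · rw [hσ2, EuclideanSpace.norm_sq_eq]
              have : ∑ i, ‖y i‖ ^ 2 = ∑ i, (y i) ^ 2 := by simp
              rw [this]
              linarith [hy2]
          calc c₀ / 2 = c₀ * (1 / 2) := by ring
            _ ≤ c₀ * F y := mul_le_mul_of_nonneg_left this hc₀pos.le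
        have hvolG : ENNReal.ofReal (1 / 4) ≤ (volume.restrict (lpBall p hp d).carrier) {y | c₀ / 2 ≤ c₀ * F y} := by
          rw [Measure.restrict_apply (measurableSet_le measurable_const (hF2.continuous.measurable.const_mul _))]
          refine (hgood'.trans (le_of_eq (volume_ofLp_preimage G).symm)).trans (measure_mono hGF)
        have hfin : IsFiniteMeasure (volume.restrict (lpBall p hp d).carrier) :=
          ⟨by rw [Measure.restrict_apply_univ, (lpBall p hp d).volume_eq_one]; exact ENNReal.one_lt_top⟩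
        have hint : Integrable (fun y => c₀ * F y) (volume.restrict (lpBall p hp d).carrier) := by
          apply Integrable.const_mul
          refine Integrable.of_bound (C := 1) hF2.continuous.aestronglyMeasurable ?_
          refine Eventually.of_forall fun y => ?_
          rw [Real.norm_of_nonneg (hF0 y)]; exact hF1 y
        have hmarkov := mul_meas_ge_le_integral_of_nonneg (μ := volume.restrict (lpBall p hp d).carrier)
          (f := fun y => c₀ * F y) (Eventually.of_forall fun y => mul_nonneg hc₀pos.le (hF0 y)) hint (c₀ / 2)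
        have hreal : 1 / 4 ≤ (volume.restrict (lpBall p hp d).carrier).real {y | c₀ / 2 ≤ c₀ * F y} := by
          rw [measureReal_def]
          rw [← ENNReal.ofReal_le_iff_le_toReal (measure_ne_top _ _)]
          exact hvolG
        refine le_trans ?_ hmarkov
        calc c₀ / 8 = c₀ / 2 * (1 / 4) := by ring
          _ ≤ _ := mul_le_mul_of_nonneg_left hreal (by positivity)
    have hcontra := hle.trans hn1
    rw [ENNReal.ofReal_le_ofReal_iff hε.le] at hcontra
    linarith

end Pool.Agent.Results.MP_562679_an.CurseLpBalls
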